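import Pool.Agent.Helper36.RN.Goals

/-!
# Project RFn, existence part, packet PRJ: projections onto polynomials (general dimension)
-/

namespace Pool.Agent.Helper79.RN

open Set Filter Topology MeasureTheory Pool.Agent.Helper36.RN
open scoped ContDiff

variable {n : ℕ}

/-- short name for the inner product -/
noncomputable abbrev ipp (u v : XS n) : ℝ := Pool.Agent.Helper36.RN.ip u v

lemma ipp_eq (u v : XS n) : ipp u v = ((n : ℝ) + 1) * inner ℝ (io u) (io v) := by
  unfold ipp
  rw [Pool.Agent.Helper36.RN.ip_apply, Pool.Agent.Helper47.RFn.integ, MeasureTheory.L2.inner_def]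
  congr 1
  apply integral_congr_ae
  have h1 := (memLp_val u).coeFn_toLp
  have h2 := (memLp_val v).coeFn_toLp
  filter_upwards [h1, h2] with x hx hy
  rw [io_apply, io_apply, hx, hy]
  simp [mul_comm]

/-- the projection onto a finite dimensional space of smooth functions -/
lemma exJ (V : Submodule ℝ (XS n)) [FiniteDimensional ℝ V] : ∃ J : LL n →ₗ[ℝ] XS n,
    (∀ h, J h ∈ V) ∧ (∀ u v, ipp (J (io u)) v = ipp u (J (io v)))
    ∧ (∀ v ∈ V, ∀ u, ipp (J (io v)) u = ipp v u)
    ∧ (∀ m, ∃ C, ∀ h, sn m (J h) ≤ C * ‖h‖ ^ 2) := by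
  have : CompleteSpace (V.map io) := FiniteDimensional.complete ℝ _
  obtain ⟨g, hg⟩ := LinearMap.exists_rightInverse_of_surjective (io.submoduleMap V)
    (LinearMap.range_eq_top.2 (LinearMap.submoduleMap_surjective io V))
  have hg' : ∀ w : V.map io, io ((g w : V) : XS n) = (w : LL n) := by
    intro w
    have h := congrArg (fun f => ((f w : V.map io) : LL n)) hg
    simpa using h
  set P : LL n →L[ℝ] V.map io := (V.map io).orthogonalProjectionOnto with hP
  refine ⟨V.subtype ∘ₗ g ∘ₗ P.toLinearMap, ?_, ?_, ?_, ?_⟩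
  · intro h
    exact (g (P h)).2
  · intro u v
    rw [ipp_eq, ipp_eq]
    congr 1
    change inner ℝ (io ((g (P (io u)) : V) : XS n)) (io v)
      = inner ℝ (io u) (io ((g (P (io v)) : V) : XS n))
    rw [hg', hg', hP]
    exact Submodule.inner_starProjection_left_eq_right _ _ _
  · intro v hv u
    rw [ipp_eq, ipp_eq]
    congr 1
    change inner ℝ (io ((g (P (io v)) : V) : XS n)) (io u) = inner ℝ (io v) (io u)
    rw [hg']
    have h1 : ((P (io v) : V.map io) : LL n) = io v := by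
      rw [hP]
      exact Submodule.starProjection_eq_self_iff.2 (Submodule.mem_map_of_mem hv)
    rw [h1]
  · intro m
    have hT : ∀ w : List (KK n), ∃ C : ℝ, 0 ≤ C ∧ ∀ h : LL n,
        ipp (Wd w (g (P h) : V)) (Wd w (g (P h) : V)) ≤ C * ‖h‖ ^ 2 := by
      intro w
      set T : V.map io →ₗ[ℝ] LL n := io ∘ₗ Wd w ∘ₗ V.subtype ∘ₗ g with hT
      refine ⟨((n : ℝ) + 1) * ‖T.toContinuousLinearMap‖ ^ 2, by positivity, ?_⟩
      intro h
      rw [ipp_eq, real_inner_self_eq_norm_sq]
      have h1 : ‖io (Wd w (g (P h) : V))‖ ≤ ‖T.toContinuousLinearMap‖ * ‖h‖ := by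
        have h2 : ‖T.toContinuousLinearMap (P h)‖ ≤ ‖T.toContinuousLinearMap‖ * ‖P h‖ :=
          ContinuousLinearMap.le_opNorm _ _
        have h3 : ‖P h‖ ≤ ‖h‖ := by
          rw [hP]; exact Submodule.norm_orthogonalProjectionOnto_apply_le _ _
        calc ‖io (Wd w (g (P h) : V))‖ = ‖T.toContinuousLinearMap (P h)‖ := rfl
          _ ≤ _ := h2
          _ ≤ _ := by gcongr
      have h4 : ‖io (Wd w (g (P h) : V))‖ ^ 2 ≤ (‖T.toContinuousLinearMap‖ * ‖h‖) ^ 2 :=
        pow_le_pow_left₀ (norm_nonneg _) h1 2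
      calc ((n : ℝ) + 1) * ‖io (Wd w (g (P h) : V))‖ ^ 2
          ≤ ((n : ℝ) + 1) * (‖T.toContinuousLinearMap‖ * ‖h‖) ^ 2 := by gcongr
        _ = _ := by ring
    choose C hC0 hC using hT
    refine ⟨∑ w ∈ Wle m, C w, fun h => ?_⟩
    rw [sn_eq, Finset.sum_mul]
    exact Finset.sum_le_sum fun w _ => hC w h

lemma ipp_sq_add (u v : XS n) : ipp (u + v) (u + v) = ipp u u + 2 * ipp u v + ipp v v := by
  unfold ipp
  simp only [map_add, LinearMap.add_apply]
  rw [Pool.Agent.Helper36.RN.ip_comm v u]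
  ring

lemma ipp_zero_right {v : XS n} (h : ipp v v = 0) (u : XS n) : ipp u v = 0 := by
  have h1 := eq_zero_of_ip h
  rw [h1]
  unfold ipp
  simp

lemma sum_Ld_eq (v : XS n) : ∑ i, ipp (Ld i v) (Ld i v) = - ipp (Lp0 v) v := by
  unfold ipp Lp0
  rw [map_sum, LinearMap.sum_apply, ← Finset.sum_neg_distrib]
  refine Finset.sum_congr rfl fun i _ => ?_
  rw [ibp i (Ld i v) v]
  ring

lemma Lp0_symm (u v : XS n) : ipp (Lp0 u) v = ipp u (Lp0 v) := by
  unfold ipp Lp0
  rw [map_sum, LinearMap.sum_apply, map_sum]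
  refine Finset.sum_congr rfl fun i _ => ?_
  have e1 : Pool.Agent.Helper36.RN.ip (Ld i (Ld i u)) v
      = - Pool.Agent.Helper36.RN.ip (Ld i u) (Ld i v) := ibp i _ _
  have e2 : Pool.Agent.Helper36.RN.ip u (Ld i (Ld i v))
      = Pool.Agent.Helper36.RN.ip (Ld i (Ld i v)) u := Pool.Agent.Helper36.RN.ip_comm _ _
  have e3 : Pool.Agent.Helper36.RN.ip (Ld i (Ld i v)) u
      = - Pool.Agent.Helper36.RN.ip (Ld i v) (Ld i u) := ibp i _ _
  have e4 : Pool.Agent.Helper36.RN.ip (Ld i v) (Ld i u)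
      = Pool.Agent.Helper36.RN.ip (Ld i u) (Ld i v) := Pool.Agent.Helper36.RN.ip_comm _ _
  rw [e1, e2, e3, e4]

lemma ipp_sup {z : XS n} {δ : ℝ} (h : ∀ x, |z.1 x| ≤ δ) :
    ipp z z ≤ δ ^ 2 * ipp (1 : XS n) 1 := by
  have h1 : ipp z z ≤ ipp ((δ : ℝ) • (1 : XS n)) ((δ : ℝ) • (1 : XS n)) := by
    apply Pool.Agent.Helper36.RN.ip_mono
    intro x
    have h4 := h x
    have h5 := abs_nonneg (z.1 x)
    rw [smul_val, one_val, mul_one, ← abs_mul_abs_self (z.1 x)]
    nlinarith
  refine h1.trans (le_of_eq ?_)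
  unfold ipp
  simp only [map_smul, LinearMap.smul_apply, smul_eq_mul]
  ring

theorem prj : G_PRJ := by
  intro hPOL n hn
  obtain ⟨V, hfd, hmono, -, hLd, hLp, hdens⟩ := hPOL n hn
  have hJ : ∀ N, ∃ J : LL n →ₗ[ℝ] XS n,
      (∀ h, J h ∈ V N) ∧ (∀ u v, ipp (J (io u)) v = ipp u (J (io v)))
      ∧ (∀ v ∈ V N, ∀ u, ipp (J (io v)) u = ipp v u)
      ∧ (∀ m, ∃ C, ∀ h, sn m (J h) ≤ C * ‖h‖ ^ 2) := fun N => by
    have := hfd N
    exact exJ (V N)
  choose J hJV hJs hJp hJb using hJ
  have hcm : ∀ a b : XS n, ipp a b = ipp b a := fun a b => Pool.Agent.Helper36.RN.ip_comm _ _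
  have hsub : ∀ a b y : XS n, ipp (a - b) y = ipp a y - ipp b y := by
    intro a b y; unfold ipp; simp
  -- projections
  have hVm : ∀ {N m : ℕ}, N ≤ m → V N ≤ V m := fun {N m} h => monotone_nat_of_le_succ hmono h
  have hp : ∀ N u, ∀ v ∈ V N, ipp (J N (io u)) v = ipp u v := by
    intro N u v hv
    rw [hJs, hcm, hJp N v hv, hcm]
  have hpp : ∀ N u, ipp (J N (io u)) (J N (io u)) = ipp u (J N (io u)) := fun N u =>
    hp N u _ (hJV N _)
  have hcon : ∀ N u, ipp (J N (io u)) (J N (io u)) ≤ ipp u u := by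
    intro N u
    have h1 : 0 ≤ ipp (u + -(J N (io u))) (u + -(J N (io u))) := ip_nonneg _
    rw [ipp_sq_add] at h1
    have h2 : ipp u (-(J N (io u))) = - ipp u (J N (io u)) := by unfold ipp; simp
    have h3 : ipp (-(J N (io u))) (-(J N (io u))) = ipp (J N (io u)) (J N (io u)) := by
      unfold ipp; simp
    rw [h2, h3] at h1
    linarith [hpp N u]
  have hcomm : ∀ N i u, Ld i (J N (io u)) = J N (io (Ld i u)) := by
    intro N i u
    have hw : Ld i (J N (io u)) - J N (io (Ld i u)) ∈ V N :=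
      Submodule.sub_mem _ (hLd N i _ (hJV N _)) (hJV N _)
    have h1 : ∀ v ∈ V N, ipp (Ld i (J N (io u)) - J N (io (Ld i u))) v = 0 := by
      intro v hv
      have h2 : ipp (Ld i (J N (io u))) v = ipp (Ld i u) v := by
        have e1 : ipp (Ld i (J N (io u))) v = - ipp (J N (io u)) (Ld i v) := ibp i _ _
        have e2 : ipp (Ld i u) v = - ipp u (Ld i v) := ibp i _ _
        rw [e1, e2, hp N u _ (hLd N i v hv)]
      rw [hsub, h2, hp N (Ld i u) v hv, sub_self]
    exact sub_eq_zero.1 (eq_zero_of_ip (h1 _ hw))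
  -- spectral gap
  have hLpV : ∀ N, ∀ v ∈ V N, Lp0 v ∈ V N := by
    intro N v hv
    exact Submodule.sum_mem _ fun i _ => hLd N i _ (hLd N i _ hv)
  have hgap : ∀ N M, N ≤ M → ∀ v ∈ V M, (∀ z ∈ V N, ipp v z = 0) →
      ((N : ℝ) + 1) ^ 2 * ipp v v ≤ - ipp (Lp0 v) v := by
    intro N M hM
    induction M, hM using Nat.le_induction with
    | base =>
      intro v hv hz
      have h0 := hz v hv
      rw [h0, ipp_zero_right h0]
      simp
    | succ M hM ih =>
      intro v hv hz
      set v1 : XS n := J M (io v) with hv1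
      set v2 : XS n := v - v1 with hv2
      have hvv : v = v1 + v2 := by rw [hv2]; abel
      have hv1V : v1 ∈ V M := hJV M _
      have hv2V : v2 ∈ V (M + 1) := Submodule.sub_mem _ hv (hmono M hv1V)
      have h1 : ∀ z ∈ V M, ipp v2 z = 0 := by
        intro z hz'
        rw [hv2, hsub, hv1, hp M v z hz', sub_self]
      have h2 : ∀ z ∈ V N, ipp v1 z = 0 := by
        intro z hz'
        rw [hv1, hp M v z (hVm hM hz'), hz z hz']
      have h3 := ih v1 hv1V h2
      have hv'V := hLp M v2 hv2V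
      set c : ℝ := 2 * ((M : ℝ) + 1) * ((M : ℝ) + n) with hc
      have h4 : ∀ y, ipp (Lp0 v2 + c • v2) y = ipp (Lp0 v2) y + c * ipp v2 y := by
        intro y
        unfold ipp
        simp only [map_add, LinearMap.add_apply, map_smul, LinearMap.smul_apply, smul_eq_mul]
      have h5 : ipp (Lp0 v2 + c • v2) (Lp0 v2 + c • v2) = 0 := by
        rw [h4, Lp0_symm, h1 _ (hLpV M _ hv'V), h1 _ hv'V]
        ring
      have h6 : ipp (Lp0 v2) v2 = -(c * ipp v2 v2) := by
        have e : ipp (Lp0 v2 + c • v2) v2 = 0 := by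
          rw [hcm]
          exact ipp_zero_right h5 v2
        rw [h4] at e
        linarith
      have h7 : ipp (Lp0 v2) v1 = 0 := by
        rw [Lp0_symm]; exact h1 _ (hLpV M _ hv1V)
      have h8 : ipp (Lp0 v1) v2 = 0 := by
        rw [Lp0_symm, hcm, h7]
      have h9 : ipp (Lp0 v) v = ipp (Lp0 v1) v1 + ipp (Lp0 v1) v2 + ipp (Lp0 v2) v1
          + ipp (Lp0 v2) v2 := by
        have e : Lp0 v = Lp0 v1 + Lp0 v2 := by
          rw [hvv]; unfold Lp0; simp [Finset.sum_add_distrib]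
        rw [e]
        have e2 : ipp (Lp0 v1 + Lp0 v2) v = ipp (Lp0 v1 + Lp0 v2) (v1 + v2) := by rw [← hvv]
        rw [e2]
        unfold ipp; simp only [map_add, LinearMap.add_apply]; ring
      have h10 : ipp v v = ipp v1 v1 + ipp v2 v2 := by
        rw [hvv, ipp_sq_add]
        have : ipp v1 v2 = ipp v2 v1 := hcm _ _
        rw [this, h1 _ hv1V]; ring
      have h11 : 0 ≤ ipp v2 v2 := ip_nonneg _
      have h12 : ((N : ℝ) + 1) ^ 2 ≤ c := by
        have h13 : (N : ℝ) ≤ M := by exact_mod_cast hM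
        have h14 : (1 : ℝ) ≤ n := by exact_mod_cast hn
        have h15 : (0 : ℝ) ≤ N := Nat.cast_nonneg N
        rw [hc]
        nlinarith [mul_nonneg (by linarith : (0:ℝ) ≤ (M : ℝ) + 1) (by linarith : (0:ℝ) ≤ (n : ℝ) - 1)]
      have h13 := mul_le_mul_of_nonneg_right h12 h11
      rw [h9, h10, h6, h7, h8]
      linarith
  refine ⟨J, hcomm, hJs, hcon, ?_, hJb⟩
  intro N u
  set A : ℝ := (1 / ((N : ℝ) + 1)) ^ 2 * ∑ i, ipp (Ld i u) (Ld i u) with hA
  have hS0 : 0 ≤ ∑ i, ipp (Ld i u) (Ld i u) := Finset.sum_nonneg fun i _ => ip_nonneg _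
  -- the part inside V M
  have hin : ∀ M, N ≤ M → ipp (J M (io u) - J N (io u)) (J M (io u) - J N (io u)) ≤ A := by
    intro M hM
    have hwV : J M (io u) - J N (io u) ∈ V M :=
      Submodule.sub_mem _ (hJV M _) (hVm hM (hJV N _))
    have hz : ∀ z ∈ V N, ipp (J M (io u) - J N (io u)) z = 0 := by
      intro z hz
      rw [hsub, hp M u z (hVm hM hz), hp N u z hz, sub_self]
    have h1 := hgap N M hM _ hwV hz
    rw [← sum_Ld_eq] at h1
    have h2 : ∑ i, ipp (Ld i (J M (io u) - J N (io u))) (Ld i (J M (io u) - J N (io u)))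
        ≤ ∑ i, ipp (Ld i u) (Ld i u) := by
      refine Finset.sum_le_sum fun i _ => ?_
      have hc : Ld i (J M (io u) - J N (io u)) = J M (io (Ld i u)) - J N (io (Ld i u)) := by
        rw [map_sub, hcomm, hcomm]
      rw [hc]
      have e6 : ipp (J M (io (Ld i u)) - J N (io (Ld i u))) (J M (io (Ld i u)) - J N (io (Ld i u)))
          = ipp (J M (io (Ld i u))) (J M (io (Ld i u)))
            - 2 * ipp (J M (io (Ld i u))) (J N (io (Ld i u)))
            + ipp (J N (io (Ld i u))) (J N (io (Ld i u))) := by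
        rw [hsub, hcm (J M (io (Ld i u))) _, hcm (J N (io (Ld i u))) (_ - _), hsub, hsub,
          hcm (J N (io (Ld i u))) (J M (io (Ld i u)))]
        ring
      have e7 : ipp (J M (io (Ld i u))) (J N (io (Ld i u)))
          = ipp (J N (io (Ld i u))) (J N (io (Ld i u))) := by
        rw [hp M (Ld i u) _ (hVm hM (hJV N _)), hpp]
      rw [e6, e7]
      have e8 := hcon M (Ld i u)
      have e9 : 0 ≤ ipp (J N (io (Ld i u))) (J N (io (Ld i u))) := ip_nonneg _
      linarith
    rw [hA, div_pow, one_pow, one_div, ← div_eq_inv_mul, le_div_iff₀ (by positivity)]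
    linarith
  have hmain : ∀ ε > 0, ipp (J N (io u) - u) (J N (io u) - u) ≤ A + ε := by
    intro ε hε
    set K : ℝ := ipp (1 : XS n) 1 + 1 with hK
    have hK1 : 0 ≤ ipp (1 : XS n) 1 := ip_nonneg _
    have hK0 : 0 < K := by positivity
    set δ : ℝ := min 1 (ε / K) with hδ
    have hδ0 : 0 < δ := lt_min one_pos (by positivity)
    obtain ⟨N', v, hv, hvd⟩ := hdens u δ hδ0
    set M := max N N' with hM
    have hnM : N ≤ M := le_max_left _ _
    have hvM : v ∈ V M := hVm (le_max_right _ _) hv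
    have hperp : ∀ z ∈ V M, ipp z (J M (io u) - u) = 0 := by
      intro z hz
      rw [hcm, hsub, hp M u z hz, sub_self]
    have h1 : ipp (J N (io u) - u) (J N (io u) - u)
        = ipp (J N (io u) - J M (io u)) (J N (io u) - J M (io u))
          + ipp (J M (io u) - u) (J M (io u) - u) := by
      have e : J N (io u) - u = (J N (io u) - J M (io u)) + (J M (io u) - u) := by abel
      have e2 := ipp_sq_add (J N (io u) - J M (io u)) (J M (io u) - u)
      rw [← e, hperp _ (Submodule.sub_mem _ (hVm hnM (hJV N _)) (hJV M _))] at e2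
      linarith
    have h2 : ipp (v - u) (v - u) = ipp (v - J M (io u)) (v - J M (io u))
          + ipp (J M (io u) - u) (J M (io u) - u) := by
      have e : v - u = (v - J M (io u)) + (J M (io u) - u) := by abel
      have e2 := ipp_sq_add (v - J M (io u)) (J M (io u) - u)
      rw [← e, hperp _ (Submodule.sub_mem _ hvM (hJV M _))] at e2
      linarith
    have h3 : 0 ≤ ipp (v - J M (io u)) (v - J M (io u)) := ip_nonneg _
    have h4 : ipp (v - u) (v - u) ≤ δ ^ 2 * ipp (1 : XS n) 1 := by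
      apply ipp_sup
      intro x
      have := hvd x
      rw [abs_sub_comm] at this
      exact this
    have h5 : δ ^ 2 * ipp (1 : XS n) 1 ≤ ε := by
      have h6 : δ ≤ 1 := min_le_left _ _
      have h7 : δ ≤ ε / K := min_le_right _ _
      have h8 : δ * K ≤ ε := by rwa [le_div_iff₀ hK0] at h7
      have h9 : δ ^ 2 * ipp (1 : XS n) 1 ≤ δ * K := by
        have : δ ^ 2 ≤ δ := by nlinarith
        calc δ ^ 2 * ipp (1 : XS n) 1 ≤ δ * ipp (1 : XS n) 1 := by gcongr
          _ ≤ δ * K := by gcongr; linarith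
      linarith
    have h6 : ipp (J N (io u) - J M (io u)) (J N (io u) - J M (io u))
        = ipp (J M (io u) - J N (io u)) (J M (io u) - J N (io u)) := by
      have e : J N (io u) - J M (io u) = -(J M (io u) - J N (io u)) := by abel
      rw [e]; unfold ipp; simp only [map_neg, LinearMap.neg_apply, neg_neg]
    have h7 := hin M hnM
    rw [h1, h6]
    linarith
  exact le_of_forall_pos_le_add hmain

end Pool.Agent.Helper79.RN
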