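import Pool.Agent.Helper36.RN.GoalsG

/-!
# Project RFn, existence part, packet SYS: the two forms of the evolution of the connection agree
-/

namespace Pool.Agent.Helper79.RN

open Finset Pool.Agent.Helper36.RN Pool.Agent.Helper47.RFn

section SYS

variable {n : ℕ} {𝒜 : Type} [CommRing 𝒜]

/-- contraction -/
lemma contr0 {θ A : Ix n → Ix n → 𝒜} (tA : ∀ i j, ∑ a, θ i a * A a j = if i = j then 1 else 0)
    (i : Ix n) (Y : Ix n → 𝒜) : ∑ a, θ i a * ∑ l, A a l * Y l = Y i := by
  have h1 : ∑ a, θ i a * ∑ l, A a l * Y l = ∑ l, (∑ a, θ i a * A a l) * Y l := by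
    simp only [mul_sum, sum_mul]
    rw [sum_comm]
    exact sum_congr rfl fun l _ => sum_congr rfl fun a _ => by ring
  rw [h1]
  simp only [tA, ite_mul, one_mul, zero_mul, sum_ite_eq, mem_univ, if_true]

/-- contraction inside a double sum -/
lemma contr2 {θ A : Ix n → Ix n → 𝒜} (tA : ∀ i j, ∑ a, θ i a * A a j = if i = j then 1 else 0)
    (i : Ix n) (X : Ix n → Ix n → 𝒜) (Y : Ix n → Ix n → Ix n → 𝒜) :
    ∑ a, θ i a * ∑ p, ∑ k, ∑ l, X p k * (A a l * Y p k l) = ∑ p, ∑ k, X p k * Y p k i := by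
  have h1 : ∑ a, θ i a * ∑ p, ∑ k, ∑ l, X p k * (A a l * Y p k l) =
      ∑ p, ∑ k, X p k * ∑ a, θ i a * ∑ l, A a l * Y p k l := by
    simp only [mul_sum]
    rw [sum_comm]
    refine sum_congr rfl fun p _ => ?_
    rw [sum_comm]
    refine sum_congr rfl fun k _ => sum_congr rfl fun a _ => sum_congr rfl fun l _ => ?_
    ring
  rw [h1]
  exact sum_congr rfl fun p _ => sum_congr rfl fun k _ => by rw [contr0 tA]

/-- the inverse metric from the frame -/
lemma alsum (A : Ix n → Ix n → 𝒜) (Z : Ix n → Ix n → 𝒜) :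
    ∑ q, ∑ p, ∑ k, A q p * A q k * Z p k = ∑ p, ∑ k, TC.al A p k * Z p k := by
  rw [sum_comm]
  refine sum_congr rfl fun p _ => ?_
  rw [sum_comm]
  refine sum_congr rfl fun k _ => ?_
  rw [TC.al, sum_mul]

/-- moving a sum with coefficients inside -/
lemma mv {θi : Ix n → 𝒜} (g : Ix n → 𝒜) (K' : Ix n → Ix n → 𝒜) :
    ∑ a, θi a * ∑ f, g f * K' f a = ∑ f, g f * ∑ a, θi a * K' f a := by
  simp only [mul_sum]
  rw [sum_comm]
  exact sum_congr rfl fun f _ => sum_congr rfl fun a _ => by ring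

end SYS

theorem sys : G_SYS := by
  intro n 𝒜 _ _ e n0 A θ w hB hC i c d
  have tA := hC.tA
  -- contraction of the curvature
  have hK : ∀ q c d, ∑ a, θ i a * TC.K e n0 A w q a c d = ∑ k, A q k * TC.F e n0 w k i c d := by
    intro q c d
    have h1 : ∀ a, TC.K e n0 A w q a c d = ∑ l, A a l * ∑ k, A q k * TC.F e n0 w k l c d := by
      intro a
      rw [TC.K, sum_comm]
      refine sum_congr rfl fun l _ => ?_
      rw [mul_sum]
      exact sum_congr rfl fun k _ => by ring
    simp only [h1]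
    exact contr0 tA i _
  -- the five kinds of terms
  have hB1 : ∀ q, ∑ a, θ i a * FR.Fd e A q (TC.K e n0 A w q a c d) =
      ∑ p, ∑ k, (A q p * e p (A q k)) * TC.F e n0 w k i c d
      + ∑ p, ∑ k, A q p * A q k * ∑ a, ∑ l, θ i a * e p (A a l) * TC.F e n0 w k l c d
      + ∑ p, ∑ k, A q p * A q k * e p (TC.F e n0 w k i c d) := by
    intro q
    have h1 : ∀ a, FR.Fd e A q (TC.K e n0 A w q a c d) =
        ∑ p, ∑ k, ∑ l, (A q p * e p (A q k)) * (A a l * TC.F e n0 w k l c d)
        + ∑ p, ∑ k, ∑ l, A q p * A q k * (e p (A a l) * TC.F e n0 w k l c d)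
        + ∑ p, ∑ k, ∑ l, (A q p * A q k) * (A a l * e p (TC.F e n0 w k l c d)) := by
      intro a
      rw [FR.Fd, ← sum_add_distrib, ← sum_add_distrib]
      refine sum_congr rfl fun p _ => ?_
      rw [TC.K, map_sum, mul_sum, ← sum_add_distrib, ← sum_add_distrib]
      refine sum_congr rfl fun k _ => ?_
      rw [map_sum, mul_sum, ← sum_add_distrib, ← sum_add_distrib]
      refine sum_congr rfl fun l _ => ?_
      simp only [Derivation.leibniz, smul_eq_mul]
      ring
    simp only [h1, mul_add, sum_add_distrib]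
    rw [contr2 tA i (fun p k => A q p * e p (A q k)) (fun p k l => TC.F e n0 w k l c d),
      contr2 tA i (fun p k => A q p * A q k) (fun p k l => e p (TC.F e n0 w k l c d))]
    congr 2
    simp only [mul_sum]
    rw [sum_comm]
    refine sum_congr rfl fun p _ => ?_
    rw [sum_comm]
    refine sum_congr rfl fun k _ => sum_congr rfl fun a _ => sum_congr rfl fun l _ => ?_
    ring
  have hB2 : ∀ q, ∑ a, θ i a * ∑ f, TC.Ga A w q q f * TC.K e n0 A w f a c d =
      ∑ f, ∑ p, ∑ k, A q p * w p q f * A f k * TC.F e n0 w k i c d := by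
    intro q
    rw [mv (fun f => TC.Ga A w q q f) (fun f a => TC.K e n0 A w f a c d)]
    refine sum_congr rfl fun f _ => ?_
    rw [hK, TC.Ga, sum_mul_sum]
    exact sum_congr rfl fun p _ => sum_congr rfl fun k _ => by ring
  have hB3 : ∀ q, ∑ a, θ i a * ∑ f, TC.Ga A w q a f * TC.K e n0 A w q f c d =
      ∑ p, ∑ k, A q p * A q k * ∑ a, ∑ f, ∑ l, θ i a * w p a f * A f l * TC.F e n0 w k l c d := by
    intro q
    have h1 : ∀ a f, TC.Ga A w q a f * TC.K e n0 A w q f c d =
        ∑ p, ∑ k, A q p * A q k * ∑ l, w p a f * A f l * TC.F e n0 w k l c d := by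
      intro a f
      rw [TC.Ga, TC.K, sum_mul_sum]
      refine sum_congr rfl fun p _ => sum_congr rfl fun k _ => ?_
      rw [mul_sum, mul_sum]
      exact sum_congr rfl fun l _ => by ring
    simp only [h1]
    simp only [mul_sum]
    -- a f p k l -> p k a f l
    have h2 : ∀ Z : Ix n → Ix n → Ix n → Ix n → 𝒜, ∑ a, ∑ f, ∑ p, ∑ k, Z a f p k =
        ∑ p, ∑ k, ∑ a, ∑ f, Z a f p k := by
      intro Z
      have h3 : ∀ a, ∑ f, ∑ p, ∑ k, Z a f p k = ∑ p, ∑ k, ∑ f, Z a f p k := by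
        intro a
        rw [sum_comm]
        exact sum_congr rfl fun p _ => sum_comm
      simp only [h3]
      rw [sum_comm]
      exact sum_congr rfl fun p _ => sum_comm
    rw [h2]
    refine sum_congr rfl fun p _ => sum_congr rfl fun k _ => sum_congr rfl fun a _ =>
      sum_congr rfl fun f _ => sum_congr rfl fun l _ => ?_
    ring
  have hB4 : ∀ q, ∑ a, θ i a * ∑ f, TC.Ga A w q c f * TC.K e n0 A w q a f d =
      ∑ p, ∑ k, A q p * A q k * ∑ f, w p c f * TC.F e n0 w k i f d := by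
    intro q
    rw [mv (fun f => TC.Ga A w q c f) (fun f a => TC.K e n0 A w q a f d)]
    simp only [hK]
    have h1 : ∀ f, TC.Ga A w q c f * ∑ k, A q k * TC.F e n0 w k i f d =
        ∑ p, ∑ k, A q p * A q k * (w p c f * TC.F e n0 w k i f d) := by
      intro f
      rw [TC.Ga, sum_mul_sum]
      exact sum_congr rfl fun p _ => sum_congr rfl fun k _ => by ring
    simp only [h1, mul_sum]
    rw [sum_comm]
    exact sum_congr rfl fun p _ => sum_comm
  have hB5 : ∀ q, ∑ a, θ i a * ∑ f, TC.Ga A w q d f * TC.K e n0 A w q a c f =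
      ∑ p, ∑ k, A q p * A q k * ∑ f, w p d f * TC.F e n0 w k i c f := by
    intro q
    rw [mv (fun f => TC.Ga A w q d f) (fun f a => TC.K e n0 A w q a c f)]
    simp only [hK]
    have h1 : ∀ f, TC.Ga A w q d f * ∑ k, A q k * TC.F e n0 w k i c f =
        ∑ p, ∑ k, A q p * A q k * (w p d f * TC.F e n0 w k i c f) := by
      intro f
      rw [TC.Ga, sum_mul_sum]
      exact sum_congr rfl fun p _ => sum_congr rfl fun k _ => by ring
    simp only [h1, mul_sum]
    rw [sum_comm]
    exact sum_congr rfl fun p _ => sum_comm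
  -- sum over `q`
  have hy : ∑ a, θ i a * TC.y3 e n0 A w a c d =
      ∑ q, ∑ p, ∑ k, (A q p * e p (A q k)) * TC.F e n0 w k i c d
      + ∑ p, ∑ k, TC.al A p k * ∑ a, ∑ l, θ i a * e p (A a l) * TC.F e n0 w k l c d
      + ∑ p, ∑ k, TC.al A p k * e p (TC.F e n0 w k i c d)
      - ∑ q, ∑ f, ∑ p, ∑ k, A q p * w p q f * A f k * TC.F e n0 w k i c d
      - ∑ p, ∑ k, TC.al A p k * ∑ a, ∑ f, ∑ l, θ i a * w p a f * A f l * TC.F e n0 w k l c d
      - ∑ p, ∑ k, TC.al A p k * ∑ f, w p c f * TC.F e n0 w k i f d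
      - ∑ p, ∑ k, TC.al A p k * ∑ f, w p d f * TC.F e n0 w k i c f := by
    have h1 : ∑ a, θ i a * TC.y3 e n0 A w a c d =
        ∑ q, ∑ a, θ i a * TC.cd4 e A w q (TC.K e n0 A w) q a c d := by
      simp only [TC.y3, mul_sum]
      rw [sum_comm]
    have h2 : ∀ q, ∑ a, θ i a * TC.cd4 e A w q (TC.K e n0 A w) q a c d =
        ∑ a, θ i a * FR.Fd e A q (TC.K e n0 A w q a c d)
        - ∑ a, θ i a * ∑ f, TC.Ga A w q q f * TC.K e n0 A w f a c d
        - ∑ a, θ i a * ∑ f, TC.Ga A w q a f * TC.K e n0 A w q f c d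
        - ∑ a, θ i a * ∑ f, TC.Ga A w q c f * TC.K e n0 A w q a f d
        - ∑ a, θ i a * ∑ f, TC.Ga A w q d f * TC.K e n0 A w q a c f := by
      intro q
      rw [← sum_sub_distrib, ← sum_sub_distrib, ← sum_sub_distrib, ← sum_sub_distrib]
      refine sum_congr rfl fun a _ => ?_
      rw [TC.cd4]
      simp only [sum_add_distrib]
      ring
    rw [h1]
    simp only [h2, hB1, hB2, hB3, hB4, hB5, sum_sub_distrib, sum_add_distrib]
    rw [alsum, alsum, alsum, alsum, alsum]
  -- the curvature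
  have hF : ∀ k, TC.F e n0 w k i c d = e k (w i c d) - e i (w k c d) + TC.Gq n0 w k i c d := by
    intro k
    rw [TC.F, TC.Gq]
    ring
  have hF2 : ∑ p, ∑ k, TC.al A p k * e p (TC.F e n0 w k i c d) =
      ∑ p, ∑ k, TC.al A p k * e p (e k (w i c d))
      - ∑ p, ∑ k, TC.al A p k * e p (e i (w k c d))
      + ∑ p, ∑ k, TC.al A p k * e p (TC.Gq n0 w k i c d) := by
    rw [← sum_sub_distrib, ← sum_add_distrib]
    refine sum_congr rfl fun p _ => ?_
    rw [← sum_sub_distrib, ← sum_add_distrib]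
    refine sum_congr rfl fun k _ => ?_
    rw [hF, map_add, map_sub]
    ring
  have hz : e i (TC.ze e A w c d) = ∑ k, ∑ l, e i (TC.al A k l) * e k (w l c d)
      + ∑ p, ∑ k, TC.al A p k * e i (e p (w k c d)) := by
    rw [TC.ze, map_sum, ← sum_add_distrib]
    refine sum_congr rfl fun k _ => ?_
    rw [map_sum, ← sum_add_distrib]
    refine sum_congr rfl fun l _ => ?_
    rw [Derivation.leibniz, smul_eq_mul, smul_eq_mul]
    ring
  have hcom : ∑ p, ∑ k, TC.al A p k * (n0 i * e p (w k c d) - n0 p * e i (w k c d)) =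
      ∑ p, ∑ k, TC.al A p k * e i (e p (w k c d)) - ∑ p, ∑ k, TC.al A p k * e p (e i (w k c d)) := by
    rw [← sum_sub_distrib]
    refine sum_congr rfl fun p _ => ?_
    rw [← sum_sub_distrib]
    refine sum_congr rfl fun k _ => ?_
    rw [← hB.ee]
    ring
  have h3 : ∑ p, ∑ k, TC.al A p k * ∑ f, (TC.F e n0 w k i c f * w p f d
        - w p c f * TC.F e n0 w k i f d) =
      - ∑ p, ∑ k, TC.al A p k * ∑ f, w p c f * TC.F e n0 w k i f d
      - ∑ p, ∑ k, TC.al A p k * ∑ f, w p d f * TC.F e n0 w k i c f := by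
    rw [← sum_neg_distrib, ← sum_sub_distrib]
    refine sum_congr rfl fun p _ => ?_
    rw [← sum_neg_distrib, ← sum_sub_distrib]
    refine sum_congr rfl fun k _ => ?_
    have : ∑ f, (TC.F e n0 w k i c f * w p f d - w p c f * TC.F e n0 w k i f d) =
        - ∑ f, w p c f * TC.F e n0 w k i f d - ∑ f, w p d f * TC.F e n0 w k i c f := by
      rw [← sum_neg_distrib, ← sum_sub_distrib]
      refine sum_congr rfl fun f _ => ?_
      rw [hC.anti p f d]
      ring
    rw [this]
    ring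
  have h6 : ∑ p, ∑ k, ∑ a, ∑ l, TC.al A p k * θ i a * e p (A a l) * TC.F e n0 w k l c d =
      ∑ p, ∑ k, TC.al A p k * ∑ a, ∑ l, θ i a * e p (A a l) * TC.F e n0 w k l c d := by
    refine sum_congr rfl fun p _ => sum_congr rfl fun k _ => ?_
    simp only [mul_sum]
    exact sum_congr rfl fun a _ => sum_congr rfl fun l _ => by ring
  have h7 : ∑ p, ∑ k, ∑ a, ∑ f, ∑ l, TC.al A p k * θ i a * w p a f * A f l * TC.F e n0 w k l c d =
      ∑ p, ∑ k, TC.al A p k * ∑ a, ∑ f, ∑ l, θ i a * w p a f * A f l * TC.F e n0 w k l c d := by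
    refine sum_congr rfl fun p _ => sum_congr rfl fun k _ => ?_
    simp only [mul_sum]
    exact sum_congr rfl fun a _ => sum_congr rfl fun f _ => sum_congr rfl fun l _ => by ring
  rw [TC.sw, TC.lw, TC.rw, hy, hz, hF2, hcom, h3, h6, h7]
  ring

end Pool.Agent.Helper79.RN
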